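import Pool.Agent.Q81.TF.Stm

/-! Project TF: the lemmas SLID, SL1, SL4. -/

set_option autoImplicit false

open Set MeasureTheory Filter Topology Pool.Agent.Q81.TF

namespace Pool.Agent.Q142.TF

/-- Cauchy-Schwarz for continuous functions on an interval -/
theorem cs {u w : ℝ → ℝ} {a b : ℝ} (hab : a ≤ b) (hu : ContinuousOn u (Icc a b))
    (hw : ContinuousOn w (Icc a b)) :
    (∫ x in a..b, w x * u x) ^ 2 ≤ (∫ x in a..b, w x ^ 2) * ∫ x in a..b, u x ^ 2 := by
  have hu' : ContinuousOn u (uIcc a b) := by rwa [uIcc_of_le hab]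
  have hw' : ContinuousOn w (uIcc a b) := by rwa [uIcc_of_le hab]
  have i1 : IntervalIntegrable (fun x => w x * u x) volume a b := (hw'.mul hu').intervalIntegrable
  have i2 : IntervalIntegrable (fun x => w x ^ 2) volume a b := (hw'.pow 2).intervalIntegrable
  have i3 : IntervalIntegrable (fun x => u x ^ 2) volume a b := (hu'.pow 2).intervalIntegrable
  have key : ∀ t : ℝ, 0 ≤ (∫ x in a..b, w x ^ 2) * (t * t) + (2 * ∫ x in a..b, w x * u x) * t +
      ∫ x in a..b, u x ^ 2 := by
    intro t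
    have h1 : ∫ x in a..b, (t * w x + u x) ^ 2 =
        (∫ x in a..b, w x ^ 2) * (t * t) + (2 * ∫ x in a..b, w x * u x) * t +
          ∫ x in a..b, u x ^ 2 := by
      have h2 : ∀ x, (t * w x + u x) ^ 2 = (t * t) * w x ^ 2 + (2 * t) * (w x * u x) + u x ^ 2 := by
        intro x
        ring
      simp_rw [h2]
      rw [intervalIntegral.integral_add ((i2.const_mul _).add (i1.const_mul _)) i3,
        intervalIntegral.integral_add (i2.const_mul _) (i1.const_mul _),
        intervalIntegral.integral_const_mul, intervalIntegral.integral_const_mul]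
      ring
    rw [← h1]
    exact intervalIntegral.integral_nonneg hab (fun x _ => sq_nonneg _)
  have h := discrim_le_zero key
  unfold discrim at h
  nlinarith

section

variable {n p a E b N H Y : ℝ} {f f1 f2 f3 ft m R ζ ζ1 : ℝ → ℝ}

theorem cm (S : SL n p a E b N H Y f f1 f2 f3 ft m R ζ ζ1) : ContinuousOn m (Icc p a) :=
  fun x hx => (S.dm x hx).continuousAt.continuousWithinAt

theorem cz (S : SL n p a E b N H Y f f1 f2 f3 ft m R ζ ζ1) :
    ContinuousOn (fun x => ζ (m x)) (Icc p a) := by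
  have h : Continuous ζ := continuous_iff_continuousAt.2 fun v => (S.Z.d0 v).continuousAt
  exact h.comp_continuousOn (cm S)

theorem cz1 (S : SL n p a E b N H Y f f1 f2 f3 ft m R ζ ζ1) :
    ContinuousOn (fun x => ζ1 (m x)) (Icc p a) :=
  S.Z.c1.comp_continuousOn (cm S)

theorem crp (S : SL n p a E b N H Y f f1 f2 f3 ft m R ζ ζ1) (e : ℝ) :
    ContinuousOn (fun x => f x ^ e) (Icc p a) := by
  have c0 := (S.P.cont (le_refl p) (le_refl a)).1
  exact c0.rpow_const (fun x hx => Or.inl (S.P.pos x hx).ne')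

theorem ig (S : SL n p a E b N H Y f f1 f2 f3 ft m R ζ ζ1) :
    ContinuousOn (fun y => ζ (m y) * f y ^ (2 - n)) (Icc p a) :=
  (cz S).mul (crp S _)

/-- the square of the derivative of the cutoff -/
theorem z1sq (S : SL n p a E b N H Y f f1 f2 f3 ft m R ζ ζ1) (v : ℝ) :
    ζ1 v ^ 2 * b ^ 2 ≤ 144 * ζ v := by
  have h := S.Z.four v
  obtain ⟨h0, h1⟩ := S.Z.range v
  have h2 : (ζ1 v ^ 2 * b ^ 2) ^ 2 ≤ (144 * ζ v) ^ 2 := by
    have h3 : ζ v ^ 3 ≤ ζ v ^ 2 := pow_le_pow_of_le_one h0 h1 (by norm_num)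
    nlinarith
  exact (pow_le_pow_iff_left₀ (by positivity) (by positivity) (by norm_num)).1 h2

/-- the energy part of Cauchy-Schwarz -/
theorem en2 (S : SL n p a E b N H Y f f1 f2 f3 ft m R ζ ζ1) {x : ℝ} (hx : x ∈ Icc p a) :
    ∫ y in p..x, (f y ^ (n / 2) * f3 y) ^ 2 ≤ E := by
  have h4 : ∫ y in p..x, (f y ^ (n / 2) * f3 y) ^ 2 = ∫ y in p..x, f y ^ n * f3 y ^ 2 := by
    apply intervalIntegral.integral_congr
    intro y hy
    rw [uIcc_of_le hx.1] at hy
    have hpy := S.P.pos y ⟨hy.1, hy.2.trans hx.2⟩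
    simp only
    rw [mul_pow, ← Real.rpow_natCast (f y ^ (n / 2)) 2, ← Real.rpow_mul hpy.le]
    congr 2
    push_cast
    ring
  rw [h4]
  exact S.P.en_sub le_rfl hx.1 hx.2

theorem sl1 : S_SL1 := by
  intro n p a E b N H Y f f1 f2 f3 ft m R ζ ζ1 S x hx hR
  obtain ⟨c0, c1, c2, c3, cG, cw⟩ := S.P.cont (le_refl p) hx.2
  have hsub : Icc p x ⊆ Icc p a := Icc_subset_Icc le_rfl hx.2
  have hE := S.P.E_nonneg
  have hN := S.hN
  have hb := S.hb
  have hH := S.hH0
  have cu : ContinuousOn (fun y => f y ^ (n / 2) * f3 y) (Icc p x) :=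
    ((crp S _).mono hsub).mul c3
  have cw' : ContinuousOn (fun y => ζ1 (m y) * f y ^ ((4 - n) / 2)) (Icc p x) :=
    ((cz1 S).mono hsub).mul ((crp S _).mono hsub)
  have hcs := cs hx.1 cu cw'
  have e1 : ∫ y in p..x, (ζ1 (m y) * f y ^ ((4 - n) / 2)) * (f y ^ (n / 2) * f3 y) =
      ∫ y in p..x, ζ1 (m y) * (f y ^ 2 * f3 y) := by
    apply intervalIntegral.integral_congr
    intro y hy
    rw [uIcc_of_le hx.1] at hy
    have hpy := S.P.pos y (hsub hy)
    have h : f y ^ ((4 - n) / 2) * f y ^ (n / 2) = f y ^ 2 := by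
      rw [← Real.rpow_add hpy, ← Real.rpow_natCast]
      congr 1
      push_cast
      ring
    calc (ζ1 (m y) * f y ^ ((4 - n) / 2)) * (f y ^ (n / 2) * f3 y)
        = ζ1 (m y) * ((f y ^ ((4 - n) / 2) * f y ^ (n / 2)) * f3 y) := by ring
      _ = ζ1 (m y) * (f y ^ 2 * f3 y) := by rw [h]
  have e2 : ∫ y in p..x, (ζ1 (m y) * f y ^ ((4 - n) / 2)) ^ 2 ≤ 288 * N * H ^ 2 / b ^ 2 := by
    have h1 : ∫ y in p..x, (ζ1 (m y) * f y ^ ((4 - n) / 2)) ^ 2 ≤
        ∫ y in p..x, 144 * H ^ 2 / b ^ 2 * (ζ (m y) * f y ^ (2 - n)) := by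
      apply intervalIntegral.integral_mono_on hx.1
      · apply ContinuousOn.intervalIntegrable
        rw [uIcc_of_le hx.1]
        exact cw'.pow 2
      · apply ContinuousOn.intervalIntegrable
        rw [uIcc_of_le hx.1]
        exact continuousOn_const.mul ((ig S).mono hsub)
      intro y hy
      have hpy := S.P.pos y (hsub hy)
      have hz0 := (S.Z.range (m y)).1
      have hr : 0 < f y ^ (2 - n) := Real.rpow_pos_of_pos hpy _
      have h2 : (f y ^ ((4 - n) / 2)) ^ 2 = f y ^ 2 * f y ^ (2 - n) := by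
        rw [← Real.rpow_natCast (f y ^ ((4 - n) / 2)) 2, ← Real.rpow_mul hpy.le,
          ← Real.rpow_natCast (f y) 2, ← Real.rpow_add hpy]
        congr 1
        push_cast
        ring
      rw [mul_pow, h2]
      rcases le_or_gt (m y) (2 * b) with hm | hm
      · have hf := S.hH y (hsub hy) hm
        have hf2 : f y ^ 2 ≤ H ^ 2 := pow_le_pow_left₀ hpy.le hf 2
        have h3 := z1sq S (m y)
        have h4 : ζ1 (m y) ^ 2 ≤ 144 * ζ (m y) / b ^ 2 := by
          rw [le_div_iff₀ (by positivity)]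
          exact h3
        calc ζ1 (m y) ^ 2 * (f y ^ 2 * f y ^ (2 - n))
            ≤ (144 * ζ (m y) / b ^ 2) * (H ^ 2 * f y ^ (2 - n)) := by
              apply mul_le_mul h4 _ (by positivity) (by positivity)
              exact mul_le_mul_of_nonneg_right hf2 hr.le
          _ = 144 * H ^ 2 / b ^ 2 * (ζ (m y) * f y ^ (2 - n)) := by ring
      · rw [(S.Z.hi (m y) hm.le).2]
        have : 0 ≤ 144 * H ^ 2 / b ^ 2 * (ζ (m y) * f y ^ (2 - n)) := by positivity
        simpa using this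
    refine h1.trans ?_
    rw [intervalIntegral.integral_const_mul, ← S.hR x hx]
    calc 144 * H ^ 2 / b ^ 2 * R x ≤ 144 * H ^ 2 / b ^ 2 * (2 * N) :=
          mul_le_mul_of_nonneg_left hR (by positivity)
      _ = 288 * N * H ^ 2 / b ^ 2 := by ring
  rw [e1] at hcs
  have h5 : (∫ y in p..x, ζ1 (m y) * (f y ^ 2 * f3 y)) ^ 2 ≤ (17 * H / b) ^ 2 * (N * E) := by
    calc (∫ y in p..x, ζ1 (m y) * (f y ^ 2 * f3 y)) ^ 2
        ≤ (288 * N * H ^ 2 / b ^ 2) * E := by
          refine hcs.trans (mul_le_mul e2 (en2 S hx) ?_ (by positivity))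
          exact intervalIntegral.integral_nonneg hx.1 (fun y _ => sq_nonneg _)
      _ ≤ (289 * N * H ^ 2 / b ^ 2) * E := by
          apply mul_le_mul_of_nonneg_right _ hE
          apply div_le_div_of_nonneg_right _ (by positivity)
          have : 0 ≤ N * H ^ 2 := by positivity
          linarith
      _ = (17 * H / b) ^ 2 * (N * E) := by
          rw [div_pow]
          ring
  have h6 := Real.abs_le_sqrt h5
  rwa [Real.sqrt_mul (sq_nonneg _), Real.sqrt_sq (by positivity)] at h6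

theorem R_mono (S : SL n p a E b N H Y f f1 f2 f3 ft m R ζ ζ1) :
    ∀ x ∈ Icc p a, ∀ y ∈ Icc p a, x ≤ y → R x ≤ R y := by
  intro x hx y hy hxy
  rw [S.hR x hx, S.hR y hy]
  apply intervalIntegral.integral_mono_interval le_rfl hx.1 hxy
  · rw [EventuallyLE, ae_restrict_iff' measurableSet_Ioc]
    exact Eventually.of_forall (fun u hu =>
      mul_nonneg (S.Z.range _).1 (Real.rpow_nonneg (S.P.pos u ⟨hu.1.le, hu.2.trans hy.2⟩).le _))
  · apply ContinuousOn.intervalIntegrable
    rw [uIcc_of_le hy.1]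
    exact (ig S).mono (Icc_subset_Icc le_rfl hy.2)

theorem R_cont (S : SL n p a E b N H Y f f1 f2 f3 ft m R ζ ζ1) : ContinuousOn R (Icc p a) := by
  have h : ContinuousOn (fun x => ∫ y in p..x, ζ (m y) * f y ^ (2 - n)) (Icc p a) := by
    have h1 := intervalIntegral.continuousOn_primitive_interval (μ := volume) (a := p) (b := a)
      (f := fun y => ζ (m y) * f y ^ (2 - n)) (by
        rw [uIcc_of_le S.P.le]
        exact (ig S).integrableOn_Icc)
    rwa [uIcc_of_le S.P.le] at h1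
  exact h.congr (fun x hx => S.hR x hx)

/-- substitution `r = R x` -/
theorem subst_R (S : SL n p a E b N H Y f f1 f2 f3 ft m R ζ ζ1) {g : ℝ → ℝ} (hg : Continuous g)
    {x : ℝ} (hx : x ∈ Icc p a) :
    ∫ y in p..x, g (R y) * (ζ (m y) * f y ^ (2 - n)) = ∫ r in (0 : ℝ)..R x, g r := by
  have hR0 : R p = 0 := by
    rw [S.hR p ⟨le_rfl, S.P.le⟩, intervalIntegral.integral_same]
  have h := intervalIntegral.integral_comp_mul_deriv''' (a := p) (b := x) (f := R)
    (f' := fun y => ζ (m y) * f y ^ (2 - n)) (g := g) (by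
      rw [uIcc_of_le hx.1]
      exact (R_cont S).mono (Icc_subset_Icc le_rfl hx.2)) (by
      intro y hy
      rw [min_eq_left hx.1, max_eq_right hx.1] at hy
      have hya : y ∈ Ioo p a := ⟨hy.1, hy.2.trans_le hx.2⟩
      have h1 : HasDerivAt (fun x => ∫ y in p..x, ζ (m y) * f y ^ (2 - n))
          (ζ (m y) * f y ^ (2 - n)) y := by
        apply intervalIntegral.integral_hasDerivAt_right
        · apply ContinuousOn.intervalIntegrable
          rw [uIcc_of_le hya.1.le]
          exact (ig S).mono (Icc_subset_Icc le_rfl hya.2.le)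
        · exact ((ig S).mono Ioo_subset_Icc_self).stronglyMeasurableAtFilter isOpen_Ioo y hya
        · exact (ig S).continuousAt (Icc_mem_nhds hya.1 hya.2)
      have h2 : HasDerivAt R (ζ (m y) * f y ^ (2 - n)) y := by
        apply h1.congr_of_eventuallyEq
        filter_upwards [Icc_mem_nhds hya.1 hya.2] with u hu
        exact S.hR u hu
      exact h2.hasDerivWithinAt) hg.continuousOn
    (by
      apply IntegrableOn.mono_set (t := R '' uIcc p x)
      · apply hg.continuousOn.integrableOn_compact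
        apply IsCompact.image_of_continuousOn isCompact_uIcc
        rw [uIcc_of_le hx.1]
        exact (R_cont S).mono (Icc_subset_Icc le_rfl hx.2)
      · exact subset_rfl)
    (by
      apply ContinuousOn.integrableOn_compact isCompact_uIcc
      rw [uIcc_of_le hx.1]
      exact ((hg.comp_continuousOn (R_cont S)).mul (ig S)).mono (Icc_subset_Icc le_rfl hx.2))
  rw [hR0] at h
  exact h

theorem int_w {B N : ℝ} {g : ℝ → ℝ} (hg : Continuous g) (hN : 0 < N)
    (h0 : ∀ r, 0 ≤ g r) (h1 : ∀ r, g r ≤ B) (h2 : ∀ r, 2 * N ≤ r → g r = 0) {X : ℝ} (hX : 0 ≤ X) :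
    ∫ r in (0 : ℝ)..X, g r ≤ B * (2 * N) := by
  have h3 : ∫ r in (0 : ℝ)..X, g r ≤ ∫ r in (0 : ℝ)..max X (2 * N), g r := by
    apply intervalIntegral.integral_mono_interval le_rfl hX (le_max_left _ _)
    · exact Eventually.of_forall (fun r => h0 r)
    · exact hg.intervalIntegrable _ _
  have h4 : ∫ r in (0 : ℝ)..max X (2 * N), g r =
      (∫ r in (0 : ℝ)..(2 * N), g r) + ∫ r in (2 * N)..max X (2 * N), g r :=
    (intervalIntegral.integral_add_adjacent_intervals (hg.intervalIntegrable _ _)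
      (hg.intervalIntegrable _ _)).symm
  have h5 : ∫ r in (2 * N)..max X (2 * N), g r = 0 := by
    rw [intervalIntegral.integral_congr (g := fun _ => (0 : ℝ))]
    · simp
    · intro r hr
      rw [uIcc_of_le (le_max_right _ _)] at hr
      exact h2 r hr.1
  have h6 : ∫ r in (0 : ℝ)..(2 * N), g r ≤ B * (2 * N) := by
    have h7 : ∫ r in (0 : ℝ)..(2 * N), g r ≤ ∫ r in (0 : ℝ)..(2 * N), B := by
      apply intervalIntegral.integral_mono_on (by positivity) (hg.intervalIntegrable _ _)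
        (by simp)
      intro r _
      exact h1 r
    rw [intervalIntegral.integral_const] at h7
    simp only [sub_zero, smul_eq_mul] at h7
    linarith
  rw [h4, h5, add_zero] at h3
  exact h3.trans h6

theorem R_nonneg (S : SL n p a E b N H Y f f1 f2 f3 ft m R ζ ζ1) {x : ℝ} (hx : x ∈ Icc p a) :
    0 ≤ R x := by
  have hR0 : R p = 0 := by
    rw [S.hR p ⟨le_rfl, S.P.le⟩, intervalIntegral.integral_same]
  rw [← hR0]
  exact R_mono S p ⟨le_rfl, S.P.le⟩ x hx hx.1

theorem sl4 : S_SL4 := by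
  intro n p a E b N H Y B f f1 f2 f3 ft m R ζ ζ1 Fr w w1 hB S F
  obtain ⟨c0, c1, c2, c3, cG, cw⟩ := S.P.cont (le_refl p) (le_refl a)
  have hpa := S.P.le
  have ha : a ∈ Icc p a := ⟨hpa, le_rfl⟩
  have hE := S.P.E_nonneg
  have hN := S.hN
  have hN0 : 0 < N := by linarith
  have cwf : Continuous w := continuous_iff_continuousAt.2 fun v => (F.d1 v).continuousAt
  have cwR : ContinuousOn (fun x => w (R x)) (Icc p a) := cwf.comp_continuousOn (R_cont S)
  have cu : ContinuousOn (fun y => f y ^ (n / 2) * f3 y) (Icc p a) := (crp S _).mul c3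
  have cW : ContinuousOn (fun y => w (R y) * (ζ (m y) * f y ^ ((2 - n) / 2))) (Icc p a) :=
    cwR.mul ((cz S).mul (crp S _))
  have hcs := cs hpa cu cW
  have e1 : ∫ y in p..a, (w (R y) * (ζ (m y) * f y ^ ((2 - n) / 2))) * (f y ^ (n / 2) * f3 y) =
      ∫ y in p..a, w (R y) * (ζ (m y) * (f y * f3 y)) := by
    apply intervalIntegral.integral_congr
    intro y hy
    rw [uIcc_of_le hpa] at hy
    have hpy := S.P.pos y hy
    have h : f y ^ ((2 - n) / 2) * f y ^ (n / 2) = f y := by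
      rw [← Real.rpow_add hpy]
      have : (2 - n) / 2 + n / 2 = 1 := by ring
      rw [this, Real.rpow_one]
    calc (w (R y) * (ζ (m y) * f y ^ ((2 - n) / 2))) * (f y ^ (n / 2) * f3 y)
        = w (R y) * (ζ (m y) * ((f y ^ ((2 - n) / 2) * f y ^ (n / 2)) * f3 y)) := by ring
      _ = w (R y) * (ζ (m y) * (f y * f3 y)) := by rw [h]
  have e2 : ∫ y in p..a, (w (R y) * (ζ (m y) * f y ^ ((2 - n) / 2))) ^ 2 ≤
      (B / N) ^ 2 * (2 * N) := by
    have h1 : ∫ y in p..a, (w (R y) * (ζ (m y) * f y ^ ((2 - n) / 2))) ^ 2 ≤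
        ∫ y in p..a, w (R y) ^ 2 * (ζ (m y) * f y ^ (2 - n)) := by
      apply intervalIntegral.integral_mono_on hpa
      · apply ContinuousOn.intervalIntegrable
        rw [uIcc_of_le hpa]
        exact cW.pow 2
      · apply ContinuousOn.intervalIntegrable
        rw [uIcc_of_le hpa]
        exact (cwR.pow 2).mul (ig S)
      intro y hy
      have hpy := S.P.pos y hy
      obtain ⟨hz0, hz1⟩ := S.Z.range (m y)
      have hr : 0 < f y ^ (2 - n) := Real.rpow_pos_of_pos hpy _
      have h2 : (f y ^ ((2 - n) / 2)) ^ 2 = f y ^ (2 - n) := by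
        rw [← Real.rpow_natCast (f y ^ ((2 - n) / 2)) 2, ← Real.rpow_mul hpy.le]
        congr 1
        push_cast
        ring
      rw [mul_pow, mul_pow, h2]
      apply mul_le_mul_of_nonneg_left _ (sq_nonneg _)
      apply mul_le_mul_of_nonneg_right _ hr.le
      nlinarith
    refine h1.trans ?_
    have h3 := subst_R S (g := fun r => w r ^ 2) (cwf.pow 2) ha
    rw [h3]
    apply int_w (cwf.pow 2) hN0 (fun r => sq_nonneg _) _ _ (R_nonneg S ha)
    · intro r
      exact pow_le_pow_left₀ (F.w0 r) (F.wB r) 2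
    · intro r hr
      show w r ^ 2 = 0
      rw [(F.hi r hr).2.1]
      norm_num
  rw [e1] at hcs
  have h5 : (∫ y in p..a, w (R y) * (ζ (m y) * (f y * f3 y))) ^ 2 ≤ (2 * B) ^ 2 * (E / N) := by
    calc (∫ y in p..a, w (R y) * (ζ (m y) * (f y * f3 y))) ^ 2
        ≤ ((B / N) ^ 2 * (2 * N)) * E := by
          refine hcs.trans (mul_le_mul e2 (en2 S ha) ?_ (by positivity))
          exact intervalIntegral.integral_nonneg hpa (fun y _ => sq_nonneg _)
      _ = 2 * (B ^ 2 * (E / N)) := by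
          field_simp
      _ ≤ (2 * B) ^ 2 * (E / N) := by
          have : 0 ≤ B ^ 2 * (E / N) := by positivity
          nlinarith
  have h6 := Real.abs_le_sqrt h5
  rw [Real.sqrt_mul (sq_nonneg _), Real.sqrt_sq (by positivity)] at h6
  exact (le_abs_self _).trans h6

theorem slid : S_SLID := by
  intro n p a E b N H Y f f1 f2 f3 ft m R ζ ζ1 S x hx
  obtain ⟨c0, c1, c2, c3, cG, cw⟩ := S.P.cont (le_refl p) hx.2
  have hsub : Icc p x ⊆ Icc p a := Icc_subset_Icc le_rfl hx.2
  have cft := S.cft.mono hsub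
  have cz' := (cz S).mono hsub
  have cz1' := (cz1 S).mono hsub
  have hu : uIcc p x = Icc p x := uIcc_of_le hx.1
  obtain ⟨Φ, hΦ⟩ : ∃ Φ : ℝ → ℝ, Φ = fun y => (n - 2) * (ζ (m y) * (f y ^ (1 - n) *
      (f y ^ n * f3 y))) + (n - 1) * (n - 2) * (ζ (m y) * (f1 y * f2 y)) := ⟨_, rfl⟩
  have ck : ContinuousOn (kft n f f3 ft m ζ ζ1) (Icc p x) := by
    unfold kft
    exact ((cz1'.mul ((((crp S n).mono hsub).mul c3).mul ((crp S _).mono hsub))).neg).add
      (cz'.mul (continuousOn_const.mul (((crp S _).mono hsub).mul cft)))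
  have c1' : ContinuousOn (fun y => ζ1 (m y) * (f y ^ 2 * f3 y)) (Icc p x) :=
    cz1'.mul ((c0.pow 2).mul c3)
  have c2' : ContinuousOn (fun y => -(ζ1 (m y) * (f y * (f1 y * f2 y))) - ζ (m y) * f2 y ^ 2)
      (Icc p x) :=
    ((cz1'.mul (c0.mul (c1.mul c2))).neg).sub (cz'.mul (c2.pow 2))
  have i0 : IntervalIntegrable (kft n f f3 ft m ζ ζ1) volume p x := by
    apply ContinuousOn.intervalIntegrable
    rwa [hu]
  have i1 : IntervalIntegrable (fun y => ζ1 (m y) * (f y ^ 2 * f3 y)) volume p x := by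
    apply ContinuousOn.intervalIntegrable
    rwa [hu]
  have i2 : IntervalIntegrable
      (fun y => -(ζ1 (m y) * (f y * (f1 y * f2 y))) - ζ (m y) * f2 y ^ 2) volume p x := by
    apply ContinuousOn.intervalIntegrable
    rwa [hu]
  have hd : ∀ y ∈ uIcc p x, HasDerivAt Φ (kft n f f3 ft m ζ ζ1 y +
      (n - 1) * (ζ1 (m y) * (f y ^ 2 * f3 y)) -
      (n - 1) * (n - 2) * (-(ζ1 (m y) * (f y * (f1 y * f2 y))) - ζ (m y) * f2 y ^ 2)) y := by
    intro y hy
    rw [hu] at hy
    have hy' := hsub hy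
    have hpy := S.P.pos y hy'
    have dz : HasDerivAt (fun y => ζ (m y)) (ζ1 (m y) * f y) y :=
      (S.Z.d0 (m y)).comp y (S.dm y hy')
    have dr : HasDerivAt (fun y => f y ^ (1 - n)) (f1 y * (1 - n) * f y ^ (1 - n - 1)) y :=
      (S.P.d0 y hy').rpow_const (Or.inl hpy.ne')
    have d1 := (dz.mul (dr.mul (S.dq y hy'))).const_mul (n - 2)
    have d2 := (dz.mul ((S.P.d1 y hy').mul (S.P.d2 y hy'))).const_mul ((n - 1) * (n - 2))
    have d3 := d1.add d2
    have e1 : f y ^ (1 - n) * f y ^ n = f y := by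
      rw [← Real.rpow_add hpy]
      have : 1 - n + n = 1 := by ring
      rw [this, Real.rpow_one]
    have e2 : f y ^ (1 - n - 1) * f y ^ n = 1 := by
      rw [← Real.rpow_add hpy]
      have : 1 - n - 1 + n = 0 := by ring
      rw [this, Real.rpow_zero]
    have e3 : f y ^ n * f y ^ (2 - n) = f y ^ 2 := by
      rw [← Real.rpow_add hpy, ← Real.rpow_natCast]
      congr 1
      push_cast
      ring
    rw [hΦ]
    apply HasDerivAt.congr_deriv d3
    unfold kft
    simp only [Pi.mul_apply]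
    have e3' : ζ1 (m y) * (f y ^ n * f3 y * f y ^ (2 - n)) = ζ1 (m y) * (f y ^ 2 * f3 y) := by
      rw [← e3]
      ring
    rw [e3']
    have t1 : f y ^ (1 - n) * (f y ^ n * f3 y) = f y * f3 y := by
      rw [← mul_assoc, e1]
    have t2 : f1 y * (1 - n) * f y ^ (1 - n - 1) * (f y ^ n * f3 y) = f1 y * (1 - n) * f3 y := by
      calc f1 y * (1 - n) * f y ^ (1 - n - 1) * (f y ^ n * f3 y)
          = f1 y * (1 - n) * (f y ^ (1 - n - 1) * f y ^ n) * f3 y := by ring
        _ = f1 y * (1 - n) * f3 y := by rw [e2, mul_one]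
    rw [t1, t2]
    ring
  have hI := intervalIntegral.integral_eq_sub_of_hasDerivAt hd
    ((i0.add (i1.const_mul _)).sub (i2.const_mul _))
  rw [intervalIntegral.integral_sub (i0.add (i1.const_mul _)) (i2.const_mul _),
    intervalIntegral.integral_add i0 (i1.const_mul _), intervalIntegral.integral_const_mul,
    intervalIntegral.integral_const_mul] at hI
  have hp0 : Φ p = 0 := by
    rw [hΦ]
    simp only
    rw [S.mp, (S.Z.lo b le_rfl).1]
    ring
  have hx0 : Φ x = (n - 2) * (ζ (m x) * (f x * f3 x)) +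
      (n - 1) * (n - 2) * (ζ (m x) * (f1 x * f2 x)) := by
    rw [hΦ]
    simp only
    have hpx := S.P.pos x hx
    have e1 : f x ^ (1 - n) * (f x ^ n * f3 x) = f x * f3 x := by
      rw [← mul_assoc, ← Real.rpow_add hpx]
      have : 1 - n + n = 1 := by ring
      rw [this, Real.rpow_one]
    rw [e1]
  rw [hp0, hx0] at hI
  linarith

end

end Pool.Agent.Q142.TF
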